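import Mathlib

/-!
# An Ulrich partition of type `(1, 4, 12)`

The partition `(0 | -28, -29, -36, -37 | -38, -40, -42, -44, -54, -60, -70, -76, -86, -88, -90, -92)`
is Ulrich. Here `N = 4 + 12 + 48 = 64`.
-/

set_option autoImplicit false

namespace Pool.Agent.Results.MP_ff76d6_ag.Counterexample

/-- `(a | b | c)` is a partition of type `(α, β, γ)`: the sequence
`a_1, …, a_α, b_1, …, b_β, c_1, …, c_γ` of integers is strictly decreasing. -/
def IsPartition {α β γ : ℕ} (a : Fin α → ℤ) (b : Fin β → ℤ) (c : Fin γ → ℤ) : Prop :=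
  StrictAnti a ∧ StrictAnti b ∧ StrictAnti c ∧ (∀ i j, b j < a i) ∧ (∀ j k, c k < b j) ∧
    (∀ i k, c k < a i)

/-- the sequence `P(t)`: subtract `2 t` from the first block, `t` from the second block and
nothing from the third -/
def shift {α β γ : ℕ} (a : Fin α → ℤ) (b : Fin β → ℤ) (c : Fin γ → ℤ) (t : ℤ) :
    Fin α ⊕ Fin β ⊕ Fin γ → ℤ :=
  Sum.elim (fun i => a i - 2 * t) (Sum.elim (fun j => b j - t) c)

/-- `(a | b | c)` is Ulrich: for every `t ∈ {1, …, N}`, where `N = α β + α γ + β γ`, the sequence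
`P(t)` has two equal entries. -/
def IsUlrich {α β γ : ℕ} (a : Fin α → ℤ) (b : Fin β → ℤ) (c : Fin γ → ℤ) : Prop :=
  ∀ t : ℕ, 1 ≤ t → t ≤ α * β + α * γ + β * γ →
    ∃ x y : Fin α ⊕ Fin β ⊕ Fin γ, x ≠ y ∧ shift a b c t x = shift a b c t y

/-- **There is an Ulrich partition of type `(1, 4, 12)`.** -/
theorem result : ∃ (a : Fin 1 → ℤ) (b : Fin 4 → ℤ) (c : Fin 12 → ℤ),
    IsPartition a b c ∧ IsUlrich a b c := by
  refine ⟨![0], ![-28, -29, -36, -37],
    ![-38, -40, -42, -44, -54, -60, -70, -76, -86, -88, -90, -92], ?_, ?_⟩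
  · refine ⟨?_, ?_, ?_, by decide, by decide, by decide⟩
    · intro i j hij
      exact absurd hij (by rw [Subsingleton.elim i j]; exact lt_irrefl j)
    · rw [Fin.strictAnti_iff_succ_lt]
      decide
    · rw [Fin.strictAnti_iff_succ_lt]
      decide
  · intro t ht1 ht2
    have key : ∀ t ∈ Finset.Icc 1 64, 
        (∃ (i : Fin 1) (j : Fin 4), (![0] : Fin 1 → ℤ) i - 2 * ((t : ℕ) : ℤ) =
          (![-28, -29, -36, -37] : Fin 4 → ℤ) j - (t : ℤ)) ∨
        (∃ (j : Fin 4) (l : Fin 12), (![-28, -29, -36, -37] : Fin 4 → ℤ) j - (t : ℤ) =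
          (![-38, -40, -42, -44, -54, -60, -70, -76, -86, -88, -90, -92] : Fin 12 → ℤ) l) ∨
        (∃ (i : Fin 1) (l : Fin 12), (![0] : Fin 1 → ℤ) i - 2 * ((t : ℕ) : ℤ) =
          (![-38, -40, -42, -44, -54, -60, -70, -76, -86, -88, -90, -92] : Fin 12 → ℤ) l) := by
      decide
    rcases key t (Finset.mem_Icc.2 ⟨ht1, ht2⟩) with ⟨i, j, h⟩ | ⟨j, l, h⟩ | ⟨i, l, h⟩
    · exact ⟨Sum.inl i, Sum.inr (Sum.inl j), by simp, h⟩
    · exact ⟨Sum.inr (Sum.inl j), Sum.inr (Sum.inr l), by simp, h⟩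
    · exact ⟨Sum.inl i, Sum.inr (Sum.inr l), by simp, h⟩

end Pool.Agent.Results.MP_ff76d6_ag.Counterexample
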